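import Pool.Agent.W644.GN.Local

set_option autoImplicit false

/-!
# Geodesic nets: degrees are bounded by the total imbalance
-/

namespace Pool.Agent.W644.GN

open Finset

namespace Cfg

variable {ι : Type*} [Fintype ι] [DecidableEq ι] (C : Cfg ι)

theorem Oy_le (v : ι) : C.Oy v ≤ C.Ty := by
  classical
  have h := chi_le (fun a b => C.uy a b) (fun w => if C.y w ≤ C.y v then (1:ℝ) else 0)
    (fun w => by split_ifs <;> norm_num) (fun w => by split_ifs <;> norm_num)
  refine le_trans ?_ h
  have e : C.Oy v = ∑ a, ∑ b, if a = v then C.uy a b else 0 := by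
    rw [Finset.sum_comm]; simp [Oy]
  rw [e]
  refine Finset.sum_le_sum fun a _ => Finset.sum_le_sum fun b _ => ?_
  by_cases hW : C.W a b = 0
  · simp [uy, hW]
  have hab := C.W_up a b hW
  have hu := C.uy_nonneg a b
  by_cases h1 : a = v
  · rw [if_pos h1, if_pos (by rw [h1]), if_neg (by rw [← h1]; exact not_le.2 hab)]
    linarith
  · rw [if_neg h1]
    by_cases h3 : C.y b ≤ C.y v
    · rw [if_pos h3, if_pos (by linarith)]; simp
    · rw [if_neg h3]
      split_ifs <;> simp [hu]

theorem Iy_le (v : ι) : C.Iy v ≤ C.Ty := by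
  classical
  have h := chi_le (fun a b => C.uy a b) (fun w => if C.y w < C.y v then (1:ℝ) else 0)
    (fun w => by split_ifs <;> norm_num) (fun w => by split_ifs <;> norm_num)
  refine le_trans ?_ h
  have e : C.Iy v = ∑ a, ∑ b, if b = v then C.uy a b else 0 := by simp [Iy]
  rw [e]
  refine Finset.sum_le_sum fun a _ => Finset.sum_le_sum fun b _ => ?_
  by_cases hW : C.W a b = 0
  · simp [uy, hW]
  have hab := C.W_up a b hW
  have hu := C.uy_nonneg a b
  by_cases h1 : b = v
  · rw [if_pos h1, if_pos (by rw [← h1]; exact hab), if_neg (by rw [h1]; exact lt_irrefl _)]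
    linarith
  · rw [if_neg h1]
    by_cases h3 : C.y b < C.y v
    · rw [if_pos h3, if_pos (by linarith)]; simp
    · rw [if_neg h3]
      split_ifs <;> simp [hu]

theorem absx_le (v : ι) : (∑ w, |C.ux v w|) + ∑ w, |C.ux w v| ≤ 2 * C.Tx := by
  classical
  have h := chi_le (fun a b => C.ux a b) (fun w => if C.x w ≤ C.x v then (1:ℝ) else 0)
    (fun w => by split_ifs <;> norm_num) (fun w => by split_ifs <;> norm_num)
  have h' := chi_le (fun a b => C.ux a b) (fun w => if C.x w < C.x v then (1:ℝ) else 0)
    (fun w => by split_ifs <;> norm_num) (fun w => by split_ifs <;> norm_num)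
  have e : (∑ w, |C.ux v w|) = ∑ a, ∑ b, if a = v then |C.ux a b| else 0 := by
    rw [Finset.sum_comm]; simp
  have e' : (∑ w, |C.ux w v|) = ∑ a, ∑ b, if b = v then |C.ux a b| else 0 := by simp
  have h2 : (∑ a, ∑ b, if a = v then |C.ux a b| else 0) + (∑ a, ∑ b, if b = v then |C.ux a b| else 0)
      ≤ (∑ a, ∑ b, C.ux a b * ((if C.x a ≤ C.x v then (1:ℝ) else 0) -
          (if C.x b ≤ C.x v then (1:ℝ) else 0))) +
        (∑ a, ∑ b, C.ux a b * ((if C.x a < C.x v then (1:ℝ) else 0) -
          (if C.x b < C.x v then (1:ℝ) else 0))) := by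
    simp only [← Finset.sum_add_distrib]
    refine Finset.sum_le_sum fun a _ => Finset.sum_le_sum fun b _ => ?_
    by_cases hW : C.W a b = 0
    · simp [ux, hW]
    have hab := C.W_up a b hW
    have hWp := C.W_pos hW
    have hne : a ≠ b := by rintro rfl; exact lt_irrefl _ hab
    rcases lt_trichotomy (C.x a) (C.x b) with hx | hx | hx
    · have hu : 0 < C.ux a b := mul_pos hWp (by linarith)
      rw [abs_of_pos hu]
      by_cases h1 : a = v
      · have h1' : b ≠ v := fun h => hne (h1.trans h.symm)
        rw [if_pos h1, if_neg h1', if_pos (by rw [h1]), if_neg (by rw [← h1]; exact not_le.2 hx),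
          if_neg (by rw [h1]; exact lt_irrefl _), if_neg (by rw [← h1]; exact not_lt.2 hx.le)]
        linarith
      · by_cases h2 : b = v
        · rw [if_neg h1, if_pos h2, if_pos (by rw [← h2]; exact hx.le), if_pos (by rw [h2]),
            if_pos (by rw [← h2]; exact hx), if_neg (by rw [h2]; exact lt_irrefl _)]
          linarith
        · rw [if_neg h1, if_neg h2]
          split_ifs <;> linarith
    · have hu : C.ux a b = 0 := by unfold ux; rw [hx]; ring
      simp [hu]
    · have hu : C.ux a b < 0 := mul_neg_of_pos_of_neg hWp (by linarith)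
      rw [abs_of_neg hu]
      by_cases h1 : a = v
      · have h1' : b ≠ v := fun h => hne (h1.trans h.symm)
        rw [if_pos h1, if_neg h1', if_pos (by rw [h1]), if_pos (by rw [← h1]; exact hx.le),
          if_neg (by rw [h1]; exact lt_irrefl _), if_pos (by rw [← h1]; exact hx)]
        linarith
      · by_cases h2 : b = v
        · rw [if_neg h1, if_pos h2, if_neg (by rw [← h2]; exact not_le.2 hx), if_pos (by rw [h2]),
            if_neg (by rw [← h2]; exact not_lt.2 hx.le), if_neg (by rw [h2]; exact lt_irrefl _)]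
          linarith
        · rw [if_neg h1, if_neg h2]
          split_ifs <;> linarith
  rw [e, e']
  have e3 : ∑ w, |(∑ b, C.ux w b) - ∑ a, C.ux a w| = C.Tx := rfl
  rw [e3] at h h'
  linarith

theorem deg_le (hunit : ∀ a b, C.W a b ≠ 0 → C.ux a b ^ 2 + C.uy a b ^ 2 = 1) (v : ι) :
    ((univ.filter (fun b => C.W v b ≠ 0)).card : ℝ) +
      ((univ.filter (fun a => C.W a v ≠ 0)).card : ℝ) ≤ 2 * C.Tx + 2 * C.Ty := by
  have key : ∀ a b, (if C.W a b ≠ 0 then (1:ℝ) else 0) ≤ |C.ux a b| + C.uy a b := by
    intro a b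
    split_ifs with h
    · have h1 := hunit a b h
      have h2 := C.uy_nonneg a b
      have h3 := abs_nonneg (C.ux a b)
      have h4 := sq_abs (C.ux a b)
      nlinarith [mul_nonneg h3 h2]
    · exact add_nonneg (abs_nonneg _) (C.uy_nonneg a b)
  have h1 : ((univ.filter (fun b => C.W v b ≠ 0)).card : ℝ) ≤ (∑ w, |C.ux v w|) + C.Oy v := by
    rw [Finset.card_filter]
    push_cast
    unfold Oy
    rw [← Finset.sum_add_distrib]
    exact Finset.sum_le_sum fun b _ => key v b
  have h2 : ((univ.filter (fun a => C.W a v ≠ 0)).card : ℝ) ≤ (∑ w, |C.ux w v|) + C.Iy v := by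
    rw [Finset.card_filter]
    push_cast
    unfold Iy
    rw [← Finset.sum_add_distrib]
    exact Finset.sum_le_sum fun b _ => key b v
  linarith [C.absx_le v, C.Oy_le v, C.Iy_le v]

end Cfg

end Pool.Agent.W644.GN
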