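import Pool.Agent.W644.GN.Core

set_option autoImplicit false

/-!
# Geodesic nets: bounding the fluxes
-/

namespace Pool.Agent.W644.GN

open Finset

theorem N_eq (xa ya xb yb xv yv : ℝ) :
    N xa ya xb yb xv yv = (xa - xv) * (yb - yv) + (yv - ya) * (xb - xv) := by unfold N; ring

theorem point1 (xa ya xb yb xv yv W : ℝ) (hab : ya < yb) (hW : 0 < W)
    (nv : ya < yv → yv < yb → N xa ya xb yb xv yv ≠ 0)
    (hb : yb = yv → xb = xv) :
    (if ya < yv ∧ yv < yb ∧ N xa ya xb yb xv yv < 0 then W * (xb - xa) else 0) ≤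
      W * (xb - xa) * ((if xa < xv ∧ ya < yv then 1 else 0) -
        (if xb < xv ∧ yb < yv then 1 else 0)) := by
  by_cases hP : ya < yv ∧ yv < yb ∧ N xa ya xb yb xv yv < 0
  · rw [if_pos hP]
    obtain ⟨h1, h2, h3⟩ := hP
    rw [if_neg (show ¬ (xb < xv ∧ yb < yv) from fun h => by linarith [h.2])]
    by_cases hA : xa < xv
    · rw [if_pos ⟨hA, h1⟩]; linarith
    · rw [if_neg (fun h => hA h.1)]
      push Not at hA
      rw [N_eq] at h3
      have h4 : 0 ≤ (xa - xv) * (yb - yv) := mul_nonneg (by linarith) (by linarith)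
      have h5 : xb - xv < 0 := by
        by_contra h6
        push Not at h6
        nlinarith [mul_nonneg (show 0 ≤ yv - ya by linarith) h6]
      have : W * (xb - xa) < 0 := mul_neg_of_pos_of_neg hW (by linarith)
      linarith
  · rw [if_neg hP]
    by_cases hA : xa < xv ∧ ya < yv
    · rw [if_pos hA]
      by_cases hB : xb < xv ∧ yb < yv
      · rw [if_pos hB]; simp
      · rw [if_neg hB]
        have hx : xa ≤ xb := by
          by_cases hx1 : xb < xv
          · exfalso
            have hy : yv ≤ yb := by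
              by_contra hy; push Not at hy; exact hB ⟨hx1, hy⟩
            rcases hy.lt_or_eq with hy | hy
            · have h1 : N xa ya xb yb xv yv < 0 := by
                rw [N_eq]
                have := mul_neg_of_neg_of_pos (show xa - xv < 0 by linarith [hA.1])
                  (show 0 < yb - yv by linarith)
                have := mul_neg_of_pos_of_neg (show 0 < yv - ya by linarith [hA.2])
                  (show xb - xv < 0 by linarith)
                linarith
              exact hP ⟨hA.2, hy, h1⟩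
            · have := hb hy.symm; linarith
          · push Not at hx1; linarith [hA.1]
        have : 0 ≤ W * (xb - xa) := mul_nonneg hW.le (by linarith)
        linarith
    · rw [if_neg hA]
      by_cases hB : xb < xv ∧ yb < yv
      · rw [if_pos hB]
        have : xv ≤ xa := by
          by_contra h; push Not at h
          exact hA ⟨h, by linarith [hB.2]⟩
        have : W * (xb - xa) ≤ 0 := mul_nonpos_of_nonneg_of_nonpos hW.le (by linarith [hB.1])
        linarith
      · rw [if_neg hB]; simp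

theorem point2 (xa ya xb yb xv yv W : ℝ) (hab : ya < yb) (hW : 0 < W)
    (nv : ya < yv → yv < yb → N xa ya xb yb xv yv ≠ 0)
    (ha : ya = yv → xa = xv) :
    -(if ya < yv ∧ yv < yb ∧ N xa ya xb yb xv yv < 0 then W * (xb - xa) else 0) ≤
      W * (xb - xa) * ((if xa < xv ∧ yv < ya then 1 else 0) -
        (if xb < xv ∧ yv < yb then 1 else 0)) := by
  by_cases hP : ya < yv ∧ yv < yb ∧ N xa ya xb yb xv yv < 0
  · rw [if_pos hP]
    obtain ⟨h1, h2, h3⟩ := hP
    rw [if_neg (show ¬ (xa < xv ∧ yv < ya) from fun h => by linarith [h.2])]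
    by_cases hB : xb < xv
    · rw [if_pos ⟨hB, h2⟩]; linarith
    · rw [if_neg (fun h => hB h.1)]
      push Not at hB
      rw [N_eq] at h3
      have h4 : 0 ≤ (yv - ya) * (xb - xv) := mul_nonneg (by linarith) (by linarith)
      have h5 : xa - xv < 0 := by
        by_contra h6
        push Not at h6
        nlinarith [mul_nonneg h6 (show 0 ≤ yb - yv by linarith)]
      have : 0 < W * (xb - xa) := mul_pos hW (by linarith)
      linarith
  · rw [if_neg hP]
    by_cases hB : xb < xv ∧ yv < yb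
    · rw [if_pos hB]
      by_cases hA : xa < xv ∧ yv < ya
      · rw [if_pos hA]; simp
      · rw [if_neg hA]
        have hx : xb ≤ xa := by
          by_cases hx1 : xa < xv
          · exfalso
            have hy : ya ≤ yv := by
              by_contra hy; push Not at hy; exact hA ⟨hx1, hy⟩
            rcases hy.lt_or_eq with hy | hy
            · have h1 : N xa ya xb yb xv yv < 0 := by
                rw [N_eq]
                have := mul_neg_of_neg_of_pos (show xa - xv < 0 by linarith)
                  (show 0 < yb - yv by linarith [hB.2])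
                have := mul_neg_of_pos_of_neg (show 0 < yv - ya by linarith)
                  (show xb - xv < 0 by linarith [hB.1])
                linarith
              exact hP ⟨hy, hB.2, h1⟩
            · have := ha hy; linarith
          · push Not at hx1; linarith [hB.1]
        have : W * (xb - xa) ≤ 0 := mul_nonpos_of_nonneg_of_nonpos hW.le (by linarith)
        linarith
    · rw [if_neg hB]
      by_cases hA : xa < xv ∧ yv < ya
      · rw [if_pos hA]
        have : xv ≤ xb := by
          by_contra h; push Not at h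
          exact hB ⟨h, by linarith [hA.2]⟩
        have : 0 ≤ W * (xb - xa) := mul_nonneg hW.le (by linarith [hA.1])
        linarith
      · rw [if_neg hA]; simp

namespace Cfg

variable {ι : Type*} [Fintype ι] [DecidableEq ι] (C : Cfg ι)

noncomputable def Dx (v : ι) : ℝ := C.Ox v - C.Ix v
noncomputable def Dy (v : ι) : ℝ := C.Oy v - C.Iy v
noncomputable def Tx : ℝ := ∑ v, |C.Dx v|
noncomputable def Ty : ℝ := ∑ v, |C.Dy v|

theorem chi_le (u : ι → ι → ℝ) (χ : ι → ℝ) (h0 : ∀ w, 0 ≤ χ w) (h1 : ∀ w, χ w ≤ 1) :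
    ∑ a, ∑ b, u a b * (χ a - χ b) ≤ ∑ w, |(∑ b, u w b) - ∑ a, u a w| := by
  have e : ∑ a, ∑ b, u a b * (χ a - χ b) = ∑ w, χ w * ((∑ b, u w b) - ∑ a, u a w) := by
    have e1 : ∑ a, ∑ b, u a b * (χ a - χ b) =
        ∑ a, ∑ b, u a b * χ a - ∑ a, ∑ b, u a b * χ b := by
      simp only [mul_sub, Finset.sum_sub_distrib]
    have e2 : ∑ a, ∑ b, u a b * χ b = ∑ b, ∑ a, u a b * χ b := Finset.sum_comm
    rw [e1, e2, ← Finset.sum_sub_distrib]
    refine Finset.sum_congr rfl fun w _ => ?_
    rw [mul_sub, Finset.mul_sum, Finset.mul_sum]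
    congr 1
    · exact Finset.sum_congr rfl fun b _ => mul_comm _ _
    · exact Finset.sum_congr rfl fun b _ => mul_comm _ _
  rw [e]
  refine Finset.sum_le_sum fun w _ => ?_
  calc χ w * ((∑ b, u w b) - ∑ a, u a w) ≤ |χ w * ((∑ b, u w b) - ∑ a, u a w)| := le_abs_self _
    _ = χ w * |(∑ b, u w b) - ∑ a, u a w| := by rw [abs_mul, abs_of_nonneg (h0 w)]
    _ ≤ 1 * |(∑ b, u w b) - ∑ a, u a w| := mul_le_mul_of_nonneg_right (h1 w) (abs_nonneg _)
    _ = _ := one_mul _

theorem W_pos {a b : ι} (h : C.W a b ≠ 0) : 0 < C.W a b :=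
  lt_of_le_of_ne (C.W_nonneg a b) (Ne.symm h)

theorem uy_nonneg (a b : ι) : 0 ≤ C.uy a b := by
  by_cases h : C.W a b = 0
  · simp [uy, h]
  · exact mul_nonneg (C.W_nonneg a b) (by linarith [C.W_up a b h])

theorem FLy_nonneg (v : ι) : 0 ≤ C.FLy v := by
  refine Finset.sum_nonneg fun a _ => Finset.sum_nonneg fun b _ => ?_
  split_ifs
  · exact C.uy_nonneg a b
  · exact le_rfl

theorem FRy_nonneg (v : ι) : 0 ≤ C.FRy v := by
  refine Finset.sum_nonneg fun a _ => Finset.sum_nonneg fun b _ => ?_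
  split_ifs
  · exact C.uy_nonneg a b
  · exact le_rfl

theorem Fy_le (v : ι) : C.FLy v + C.FRy v ≤ C.Ty := by
  classical
  have h := chi_le (fun a b => C.uy a b) (fun w => if C.y w < C.y v then (1:ℝ) else 0)
    (fun w => by split_ifs <;> norm_num) (fun w => by split_ifs <;> norm_num)
  refine le_trans ?_ h
  simp only [FLy, FRy, ← Finset.sum_add_distrib]
  refine Finset.sum_le_sum fun a _ => Finset.sum_le_sum fun b _ => ?_
  by_cases hW : C.W a b = 0
  · simp [uy, hW]
  have hab := C.W_up a b hW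
  have hu := C.uy_nonneg a b
  by_cases h1 : C.Lc a b v
  · have h2 : ¬ C.Rc a b v := fun h => by have := h1.2.2; have := h.2.2; linarith
    rw [if_pos h1, if_neg h2, if_pos h1.1, if_neg (not_lt.2 h1.2.1.le)]
    linarith
  · rw [if_neg h1]
    by_cases h2 : C.Rc a b v
    · rw [if_pos h2, if_pos h2.1, if_neg (not_lt.2 h2.2.1.le)]
      linarith
    · rw [if_neg h2]
      by_cases h3 : C.y b < C.y v
      · rw [if_pos h3, if_pos (by linarith)]; simp
      · rw [if_neg h3]
        split_ifs <;> simp [hu]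

theorem FLx_le (v : ι) : C.FLx v ≤ C.Tx := by
  classical
  have h := chi_le (fun a b => C.ux a b) (fun w => if C.x w < C.x v ∧ C.y w < C.y v then (1:ℝ) else 0)
    (fun w => by split_ifs <;> norm_num) (fun w => by split_ifs <;> norm_num)
  refine le_trans ?_ h
  refine Finset.sum_le_sum fun a _ => Finset.sum_le_sum fun b _ => ?_
  by_cases hW : C.W a b = 0
  · simp [ux, hW]
  have := point1 (C.x a) (C.y a) (C.x b) (C.y b) (C.x v) (C.y v) (C.W a b) (C.W_up a b hW)
    (C.W_pos hW) (C.no_inside a b v hW) (fun h => by rw [C.y_inj b v h])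
  have e : C.W a b * (C.x b - C.x a) = C.ux a b := rfl
  rw [e] at this
  refine le_trans (le_of_eq ?_) this
  by_cases hR : C.Lc a b v
  · rw [if_pos hR, if_pos ⟨hR.1, hR.2.1, hR.2.2⟩]
  · rw [if_neg hR, if_neg (fun h => hR ⟨h.1, h.2.1, h.2.2⟩)]

theorem neg_FLx_le (v : ι) : - C.FLx v ≤ C.Tx := by
  classical
  have h := chi_le (fun a b => C.ux a b) (fun w => if C.x w < C.x v ∧ C.y v < C.y w then (1:ℝ) else 0)
    (fun w => by split_ifs <;> norm_num) (fun w => by split_ifs <;> norm_num)
  refine le_trans ?_ h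
  unfold FLx
  rw [← Finset.sum_neg_distrib]
  refine Finset.sum_le_sum fun a _ => ?_
  rw [← Finset.sum_neg_distrib]
  refine Finset.sum_le_sum fun b _ => ?_
  by_cases hW : C.W a b = 0
  · simp [ux, hW]
  have := point2 (C.x a) (C.y a) (C.x b) (C.y b) (C.x v) (C.y v) (C.W a b) (C.W_up a b hW)
    (C.W_pos hW) (C.no_inside a b v hW) (fun h => by rw [C.y_inj a v h])
  have e : C.W a b * (C.x b - C.x a) = C.ux a b := rfl
  rw [e] at this
  refine le_trans (le_of_eq ?_) this
  by_cases hR : C.Lc a b v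
  · rw [if_pos hR, if_pos ⟨hR.1, hR.2.1, hR.2.2⟩]
  · rw [if_neg hR, if_neg (fun h => hR ⟨h.1, h.2.1, h.2.2⟩)]

theorem N_neg (xa ya xb yb xv yv : ℝ) : N (-xa) ya (-xb) yb (-xv) yv = - N xa ya xb yb xv yv := by
  unfold N; ring

theorem neg_FRx_le (v : ι) : - C.FRx v ≤ C.Tx := by
  classical
  have h := chi_le (fun a b => - C.ux a b) (fun w => if -C.x w < -C.x v ∧ C.y w < C.y v then (1:ℝ) else 0)
    (fun w => by split_ifs <;> norm_num) (fun w => by split_ifs <;> norm_num)
  have h' : ∑ w, |(∑ b, - C.ux w b) - ∑ a, - C.ux a w| = C.Tx := by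
    refine Finset.sum_congr rfl fun w _ => ?_
    rw [Finset.sum_neg_distrib, Finset.sum_neg_distrib, ← abs_neg]
    unfold Dx Ox Ix
    congr 1; ring
  rw [h'] at h
  refine le_trans ?_ h
  unfold FRx
  rw [← Finset.sum_neg_distrib]
  refine Finset.sum_le_sum fun a _ => ?_
  rw [← Finset.sum_neg_distrib]
  refine Finset.sum_le_sum fun b _ => ?_
  by_cases hW : C.W a b = 0
  · simp [ux, hW]
  have := point1 (-C.x a) (C.y a) (-C.x b) (C.y b) (-C.x v) (C.y v) (C.W a b) (C.W_up a b hW)
    (C.W_pos hW) (fun h1 h2 => by rw [N_neg]; exact neg_ne_zero.2 (C.no_inside a b v hW h1 h2))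
    (fun h => by rw [C.y_inj b v h])
  rw [N_neg] at this
  have e : C.W a b * (-C.x b - -C.x a) = - C.ux a b := by unfold ux; ring
  rw [e] at this
  refine le_trans (le_of_eq ?_) this
  by_cases hR : C.Rc a b v
  · rw [if_pos hR, if_pos ⟨hR.1, hR.2.1, by linarith [hR.2.2]⟩]
  · rw [if_neg hR, if_neg (fun h => hR ⟨h.1, h.2.1, by linarith [h.2.2]⟩)]; simp

theorem FRx_le (v : ι) : C.FRx v ≤ C.Tx := by
  classical
  have h := chi_le (fun a b => - C.ux a b) (fun w => if -C.x w < -C.x v ∧ C.y v < C.y w then (1:ℝ) else 0)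
    (fun w => by split_ifs <;> norm_num) (fun w => by split_ifs <;> norm_num)
  have h' : ∑ w, |(∑ b, - C.ux w b) - ∑ a, - C.ux a w| = C.Tx := by
    refine Finset.sum_congr rfl fun w _ => ?_
    rw [Finset.sum_neg_distrib, Finset.sum_neg_distrib, ← abs_neg]
    unfold Dx Ox Ix
    congr 1; ring
  rw [h'] at h
  refine le_trans ?_ h
  unfold FRx
  refine Finset.sum_le_sum fun a _ => ?_
  refine Finset.sum_le_sum fun b _ => ?_
  by_cases hW : C.W a b = 0
  · simp [ux, hW]
  have := point2 (-C.x a) (C.y a) (-C.x b) (C.y b) (-C.x v) (C.y v) (C.W a b) (C.W_up a b hW)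
    (C.W_pos hW) (fun h1 h2 => by rw [N_neg]; exact neg_ne_zero.2 (C.no_inside a b v hW h1 h2))
    (fun h => by rw [C.y_inj a v h])
  rw [N_neg] at this
  have e : C.W a b * (-C.x b - -C.x a) = - C.ux a b := by unfold ux; ring
  rw [e] at this
  refine le_trans (le_of_eq ?_) this
  by_cases hR : C.Rc a b v
  · rw [if_pos hR, if_pos ⟨hR.1, hR.2.1, by linarith [hR.2.2]⟩]; ring
  · rw [if_neg hR, if_neg (fun h => hR ⟨h.1, h.2.1, by linarith [h.2.2]⟩)]; simp

/-- The total of the local terms is bounded. -/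
theorem sum_J_le : ∑ v, C.J v ≤ 3 * (C.Tx * C.Ty) := by
  rw [C.sweep]
  have hTx : 0 ≤ C.Tx := Finset.sum_nonneg fun _ _ => abs_nonneg _
  have hTy : 0 ≤ C.Ty := Finset.sum_nonneg fun _ _ => abs_nonneg _
  have h : ∀ v, (C.FLx v - C.FRx v) * (C.Oy v - C.Iy v) - (C.FLy v - C.FRy v) * (C.Ox v - C.Ix v)
      ≤ 2 * C.Tx * |C.Dy v| + C.Ty * |C.Dx v| := by
    intro v
    have h1 : |C.FLx v - C.FRx v| ≤ 2 * C.Tx := by
      rw [abs_le]
      constructor
      · linarith [C.neg_FLx_le v, C.FRx_le v]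
      · linarith [C.FLx_le v, C.neg_FRx_le v]
    have h2 : |C.FLy v - C.FRy v| ≤ C.Ty := by
      rw [abs_le]
      constructor
      · linarith [C.FLy_nonneg v, C.FRy_nonneg v, C.Fy_le v]
      · linarith [C.FLy_nonneg v, C.FRy_nonneg v, C.Fy_le v]
    have h3 : (C.FLx v - C.FRx v) * (C.Oy v - C.Iy v) ≤ 2 * C.Tx * |C.Dy v| :=
      (le_abs_self _).trans (by
        rw [abs_mul]
        exact mul_le_mul_of_nonneg_right h1 (abs_nonneg _))
    have h4 : -((C.FLy v - C.FRy v) * (C.Ox v - C.Ix v)) ≤ C.Ty * |C.Dx v| :=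
      (neg_le_abs _).trans (by
        rw [abs_mul]
        exact mul_le_mul_of_nonneg_right h2 (abs_nonneg _))
    linarith
  refine (Finset.sum_le_sum fun v _ => h v).trans ?_
  rw [Finset.sum_add_distrib, ← Finset.mul_sum, ← Finset.mul_sum]
  change 2 * C.Tx * C.Ty + C.Ty * C.Tx ≤ _
  linarith

theorem J_nonneg (v : ι) : 0 ≤ C.J v := by
  unfold J
  have h1 : 0 ≤ ∑ a, ∑ c, max (C.K a v c v) 0 :=
    Finset.sum_nonneg fun _ _ => Finset.sum_nonneg fun _ _ => le_max_right _ _
  have h2 : ∑ b, ∑ d, min (C.K v b v d) 0 ≤ 0 :=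
    Finset.sum_nonpos fun _ _ => Finset.sum_nonpos fun _ _ => min_le_right _ _
  linarith

end Cfg

end Pool.Agent.W644.GN
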