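import Pool.Agent.W644.GN.PW

set_option autoImplicit false

/-!
# Geodesic nets: the sweep identity and the bound
-/

namespace Pool.Agent.W644.GN

open Finset

/-- A planar net in coordinates, with the upward edges listed: `W a b > 0` if `ab` is an edge
with `y a < y b`, and `W a b = 0` otherwise. -/
structure Cfg (ι : Type*) [Fintype ι] [DecidableEq ι] where
  x : ι → ℝ
  y : ι → ℝ
  W : ι → ι → ℝ
  y_inj : ∀ a b, y a = y b → a = b
  W_nonneg : ∀ a b, 0 ≤ W a b
  W_up : ∀ a b, W a b ≠ 0 → y a < y b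
  no_inside : ∀ a b v, W a b ≠ 0 → y a < y v → y v < y b → N (x a) (y a) (x b) (y b) (x v) (y v) ≠ 0
  no_cross : ∀ a b c d, W a b ≠ 0 → W c d ≠ 0 → ¬ (a = c ∧ b = d) → ∀ t, y a < t → t < y b →
    y c < t → t < y d → Dp (x a) (y a) (x b) (y b) (x c) (y c) (x d) (y d) t ≠ 0

namespace Cfg

variable {ι : Type*} [Fintype ι] [DecidableEq ι] (C : Cfg ι)

noncomputable def ux (a b : ι) : ℝ := C.W a b * (C.x b - C.x a)
noncomputable def uy (a b : ι) : ℝ := C.W a b * (C.y b - C.y a)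

/-- `ab` passes strictly to the left of `v` -/
def Lc (a b v : ι) : Prop :=
  C.y a < C.y v ∧ C.y v < C.y b ∧ N (C.x a) (C.y a) (C.x b) (C.y b) (C.x v) (C.y v) < 0
/-- `ab` passes strictly to the right of `v` -/
def Rc (a b v : ι) : Prop :=
  C.y a < C.y v ∧ C.y v < C.y b ∧ 0 < N (C.x a) (C.y a) (C.x b) (C.y b) (C.x v) (C.y v)

noncomputable def K (a b c d : ι) : ℝ := C.ux a b * C.uy c d - C.uy a b * C.ux c d

open Classical in
noncomputable def FLx (v : ι) : ℝ := ∑ a, ∑ b, if C.Lc a b v then C.ux a b else 0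
open Classical in
noncomputable def FLy (v : ι) : ℝ := ∑ a, ∑ b, if C.Lc a b v then C.uy a b else 0
open Classical in
noncomputable def FRx (v : ι) : ℝ := ∑ a, ∑ b, if C.Rc a b v then C.ux a b else 0
open Classical in
noncomputable def FRy (v : ι) : ℝ := ∑ a, ∑ b, if C.Rc a b v then C.uy a b else 0
noncomputable def Ox (v : ι) : ℝ := ∑ b, C.ux v b
noncomputable def Oy (v : ι) : ℝ := ∑ b, C.uy v b
noncomputable def Ix (v : ι) : ℝ := ∑ a, C.ux a v
noncomputable def Iy (v : ι) : ℝ := ∑ a, C.uy a v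

/-- the local term -/
noncomputable def J (v : ι) : ℝ :=
  (∑ a, ∑ c, max (C.K a v c v) 0) - ∑ b, ∑ d, min (C.K v b v d) 0

open Classical in
theorem pwC (a b c d : ι) :
    (if a = c then min (C.K a b c d) 0 else 0) + (if C.Lc a b c then C.K a b c d else 0) +
      (if C.Rc c d a then C.K a b c d else 0) =
    (if b = d then max (C.K a b c d) 0 else 0) + (if C.Rc c d b then C.K a b c d else 0) +
      (if C.Lc a b d then C.K a b c d else 0) := by
  by_cases h1 : C.W a b = 0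
  · have : C.K a b c d = 0 := by simp [K, ux, uy, h1]
    simp [this]
  by_cases h2 : C.W c d = 0
  · have : C.K a b c d = 0 := by simp [K, ux, uy, h2]
    simp [this]
  have hac : a = c ↔ C.y a = C.y c := ⟨fun h => by rw [h], C.y_inj a c⟩
  have hbd : b = d ↔ C.y b = C.y d := ⟨fun h => by rw [h], C.y_inj b d⟩
  have := pw (C.x a) (C.y a) (C.x b) (C.y b) (C.x c) (C.y c) (C.x d) (C.y d) (C.W a b) (C.W c d)
    (C.W_up a b h1) (C.W_up c d h2) (lt_of_le_of_ne (C.W_nonneg a b) (Ne.symm h1))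
    (lt_of_le_of_ne (C.W_nonneg c d) (Ne.symm h2))
    (fun h => by rw [C.y_inj a c h]) (fun h => by rw [C.y_inj b d h])
    (fun h h' => C.no_inside c d b h2 h h') (fun h h' => C.no_inside c d a h2 h h')
    (fun h h' => C.no_inside a b c h1 h h') (fun h h' => C.no_inside a b d h1 h h')
    (fun h => C.no_cross a b c d h1 h2 (by rw [hac, hbd]; exact h))
    (C.K a b c d) (by unfold K ux uy; ring)
  simp only [hac, hbd, Lc, Rc]
  convert this using 2 <;> congr

theorem sum4_c (f : ι → ι → ι → ι → ℝ) :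
    ∑ a, ∑ b, ∑ c, ∑ d, f a b c d = ∑ c, ∑ a, ∑ b, ∑ d, f a b c d := by
  have : ∀ a, ∑ b, ∑ c, ∑ d, f a b c d = ∑ c, ∑ b, ∑ d, f a b c d := fun a => Finset.sum_comm
  simp only [this]
  exact Finset.sum_comm

theorem sum4_d (f : ι → ι → ι → ι → ℝ) :
    ∑ a, ∑ b, ∑ c, ∑ d, f a b c d = ∑ d, ∑ a, ∑ b, ∑ c, f a b c d := by
  have : ∀ a b, ∑ c, ∑ d, f a b c d = ∑ d, ∑ c, f a b c d := fun a b => Finset.sum_comm
  simp only [this]
  exact sum4_c (fun a b d c => f a b c d)

theorem sum4_b (f : ι → ι → ι → ι → ℝ) :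
    ∑ a, ∑ b, ∑ c, ∑ d, f a b c d = ∑ b, ∑ a, ∑ c, ∑ d, f a b c d := Finset.sum_comm

theorem prodL (f : ι → ι → ℝ) (g : ι → ℝ) :
    (∑ a, ∑ b, f a b) * (∑ d, g d) = ∑ a, ∑ b, ∑ d, f a b * g d := by
  rw [Finset.sum_mul]
  refine Finset.sum_congr rfl fun a _ => ?_
  rw [Finset.sum_mul]
  refine Finset.sum_congr rfl fun b _ => ?_
  rw [Finset.mul_sum]

theorem prodR (f : ι → ι → ℝ) (g : ι → ℝ) :
    (∑ b, g b) * (∑ c, ∑ d, f c d) = ∑ b, ∑ c, ∑ d, g b * f c d := by
  rw [Finset.sum_mul]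
  refine Finset.sum_congr rfl fun b _ => ?_
  rw [Finset.mul_sum]
  refine Finset.sum_congr rfl fun c _ => ?_
  rw [Finset.mul_sum]

/-- The sweep identity. -/
theorem sweep : ∑ v, C.J v =
    ∑ v, ((C.FLx v - C.FRx v) * (C.Oy v - C.Iy v) - (C.FLy v - C.FRy v) * (C.Ox v - C.Ix v)) := by
  classical
  have h : ∑ a, ∑ b, ∑ c, ∑ d, ((if a = c then min (C.K a b c d) 0 else 0) +
      (if C.Lc a b c then C.K a b c d else 0) + (if C.Rc c d a then C.K a b c d else 0)) =
      ∑ a, ∑ b, ∑ c, ∑ d, ((if b = d then max (C.K a b c d) 0 else 0) +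
      (if C.Rc c d b then C.K a b c d else 0) + (if C.Lc a b d then C.K a b c d else 0)) :=
    Finset.sum_congr rfl fun a _ => Finset.sum_congr rfl fun b _ =>
      Finset.sum_congr rfl fun c _ => Finset.sum_congr rfl fun d _ => C.pwC a b c d
  simp only [Finset.sum_add_distrib] at h
  have e1 : ∑ a, ∑ b, ∑ c, ∑ d, (if a = c then min (C.K a b c d) 0 else 0) =
      ∑ v, ∑ b, ∑ d, min (C.K v b v d) 0 := by
    refine Finset.sum_congr rfl fun a _ => Finset.sum_congr rfl fun b _ => ?_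
    rw [Finset.sum_comm]
    refine Finset.sum_congr rfl fun d _ => ?_
    simp
  have e2 : ∑ a, ∑ b, ∑ c, ∑ d, (if b = d then max (C.K a b c d) 0 else 0) =
      ∑ v, ∑ a, ∑ c, max (C.K a v c v) 0 := by
    rw [sum4_b]
    refine Finset.sum_congr rfl fun b _ => Finset.sum_congr rfl fun a _ =>
      Finset.sum_congr rfl fun c _ => ?_
    simp
  have e3 : ∑ a, ∑ b, ∑ c, ∑ d, (if C.Lc a b c then C.K a b c d else 0) =
      ∑ v, (C.FLx v * C.Oy v - C.FLy v * C.Ox v) := by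
    rw [sum4_c]
    refine Finset.sum_congr rfl fun v _ => ?_
    simp only [FLx, FLy, Ox, Oy, prodL, ← Finset.sum_sub_distrib]
    refine Finset.sum_congr rfl fun a _ => Finset.sum_congr rfl fun b _ =>
      Finset.sum_congr rfl fun d _ => ?_
    split_ifs
    · rfl
    · simp
  have e4 : ∑ a, ∑ b, ∑ c, ∑ d, (if C.Rc c d a then C.K a b c d else 0) =
      ∑ v, (C.Ox v * C.FRy v - C.Oy v * C.FRx v) := by
    refine Finset.sum_congr rfl fun v _ => ?_
    simp only [FRx, FRy, Ox, Oy, prodR, ← Finset.sum_sub_distrib]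
    refine Finset.sum_congr rfl fun a _ => Finset.sum_congr rfl fun b _ =>
      Finset.sum_congr rfl fun d _ => ?_
    split_ifs
    · rfl
    · simp
  have e5 : ∑ a, ∑ b, ∑ c, ∑ d, (if C.Rc c d b then C.K a b c d else 0) =
      ∑ v, (C.Ix v * C.FRy v - C.Iy v * C.FRx v) := by
    rw [sum4_b]
    refine Finset.sum_congr rfl fun v _ => ?_
    simp only [FRx, FRy, Ix, Iy, prodR, ← Finset.sum_sub_distrib]
    refine Finset.sum_congr rfl fun a _ => Finset.sum_congr rfl fun b _ =>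
      Finset.sum_congr rfl fun d _ => ?_
    split_ifs
    · rfl
    · simp
  have e6 : ∑ a, ∑ b, ∑ c, ∑ d, (if C.Lc a b d then C.K a b c d else 0) =
      ∑ v, (C.FLx v * C.Iy v - C.FLy v * C.Ix v) := by
    rw [sum4_d]
    refine Finset.sum_congr rfl fun v _ => ?_
    simp only [FLx, FLy, Ix, Iy, prodL, ← Finset.sum_sub_distrib]
    refine Finset.sum_congr rfl fun a _ => Finset.sum_congr rfl fun b _ =>
      Finset.sum_congr rfl fun d _ => ?_
    split_ifs
    · rfl
    · simp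
  rw [e1, e2, e3, e4, e5, e6] at h
  simp only [J, Finset.sum_sub_distrib] at h ⊢
  have e7 : ∀ v, (C.FLx v - C.FRx v) * (C.Oy v - C.Iy v) = C.FLx v * C.Oy v - C.FLx v * C.Iy v
    - C.Oy v * C.FRx v + C.Iy v * C.FRx v := fun v => by ring
  have e8 : ∀ v, (C.FLy v - C.FRy v) * (C.Ox v - C.Ix v) = C.FLy v * C.Ox v - C.FLy v * C.Ix v
    - C.Ox v * C.FRy v + C.Ix v * C.FRy v := fun v => by ring
  simp only [e7, e8, Finset.sum_sub_distrib, Finset.sum_add_distrib]
  linarith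

end Cfg

end Pool.Agent.W644.GN
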