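import Pool.Agent.W644.GN.Bound

set_option autoImplicit false

/-!
# Geodesic nets: lower bounds for the local term
-/

namespace Pool.Agent.W644.GN

open Finset

theorem row_le {ι : Type*} [Fintype ι] [DecidableEq ι] (k : ι → ι → ℝ)
    (hk : ∀ b d, k b d = - k d b) (b0 : ι) :
    ∑ d, |k b0 d| ≤ ∑ b, ∑ d, max (k b d) 0 := by
  have hp : ∀ b d, (if b = b0 then max (k b d) 0 else 0) +
      (if d = b0 then max (k b d) 0 else 0) ≤ max (k b d) 0 := by
    intro b d
    by_cases h1 : b = b0 <;> by_cases h2 : d = b0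
    · subst h1
      have h3 : k b b = 0 := by linarith [hk b b]
      rw [h2, h3]; simp
    · rw [if_pos h1, if_neg h2]; simp
    · rw [if_neg h1, if_pos h2]; simp
    · rw [if_neg h1, if_neg h2]; simp
  have hs := Finset.sum_le_sum (s := Finset.univ)
    (fun (b : ι) _ => Finset.sum_le_sum (s := Finset.univ) (fun (d : ι) _ => hp b d))
  simp only [Finset.sum_add_distrib] at hs
  have e1 : ∑ b, ∑ d, (if b = b0 then max (k b d) 0 else 0) = ∑ d, max (k b0 d) 0 := by
    rw [Finset.sum_comm]; simp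
  have e2 : ∑ b, ∑ d, (if d = b0 then max (k b d) 0 else 0) = ∑ b, max (k b b0) 0 := by simp
  rw [e1, e2, ← Finset.sum_add_distrib] at hs
  refine le_trans (le_of_eq (Finset.sum_congr rfl fun d _ => ?_)) hs
  rw [hk d b0]
  rcases le_total 0 (k b0 d) with h | h
  · rw [abs_of_nonneg h, max_eq_left h, max_eq_right (by linarith)]; ring
  · rw [abs_of_nonpos h, max_eq_right h, max_eq_left (by linarith)]; ring

theorem near_int {ι : Type*} [Fintype ι] [DecidableEq ι] (p q : ι → ℝ) (S : Finset ι)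
    (hS : ∀ i ∈ S, p i ^ 2 + q i ^ 2 = 1) (hS' : ∀ i, i ∉ S → p i = 0 ∧ q i = 0)
    (i0 : ι) (h0 : i0 ∈ S) :
    ∃ m : ℤ, Even (m - (S.card : ℤ)) ∧
      |Real.sqrt ((∑ i, p i) ^ 2 + (∑ i, q i) ^ 2) - (|(m : ℝ)|)| ≤
        2 * ∑ i, |p i0 * q i - q i0 * p i| := by
  let c : ι → ℝ := fun i => p i0 * p i + q i0 * q i
  let k : ι → ℝ := fun i => p i0 * q i - q i0 * p i
  let ε : ι → ℤ := fun i => if 0 ≤ c i then 1 else -1
  refine ⟨∑ i ∈ S, ε i, ?_, ?_⟩
  · have : (∑ i ∈ S, ε i) - (S.card : ℤ) = ∑ i ∈ S, (ε i - 1) := by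
      rw [Finset.sum_sub_distrib]; simp
    rw [this]
    refine Finset.even_sum _ (fun i _ => ?_)
    simp only [ε]
    split_ifs <;> decide
  · have hck : ∀ i ∈ S, |c i - (ε i : ℝ)| ≤ |k i| := by
      intro i hi
      have h1 : c i ^ 2 + k i ^ 2 = 1 := by
        have h2 : c i ^ 2 + k i ^ 2 = (p i0 ^ 2 + q i0 ^ 2) * (p i ^ 2 + q i ^ 2) := by
          simp only [c, k]; ring
        rw [h2, hS i hi, hS i0 h0]; ring
      rw [← sq_le_sq]
      have hc2 : c i ^ 2 ≤ 1 := by nlinarith [sq_nonneg (k i)]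
      by_cases hc : 0 ≤ c i
      · have : ((ε i : ℤ) : ℝ) = 1 := by simp [ε, hc]
        rw [this]
        have : c i ≤ 1 := by nlinarith
        nlinarith
      · have : ((ε i : ℤ) : ℝ) = -1 := by simp [ε, hc]
        rw [this]
        push Not at hc
        have : -1 ≤ c i := by nlinarith
        nlinarith
    have hκ : ∑ i ∈ S, |k i| ≤ ∑ i, |k i| :=
      Finset.sum_le_sum_of_subset_of_nonneg (Finset.subset_univ _) (fun _ _ _ => abs_nonneg _)
    have hc0 : ∑ i, c i = ∑ i ∈ S, c i := by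
      symm
      refine Finset.sum_subset (Finset.subset_univ _) (fun i _ hi => ?_)
      obtain ⟨h1, h2⟩ := hS' i hi
      simp [c, h1, h2]
    have h1 : |∑ i, c i - ((∑ i ∈ S, ε i : ℤ) : ℝ)| ≤ ∑ i, |k i| := by
      rw [hc0]
      push_cast
      rw [← Finset.sum_sub_distrib]
      exact (Finset.abs_sum_le_sum_abs _ _).trans ((Finset.sum_le_sum hck).trans hκ)
    have h2 : |∑ i, k i| ≤ ∑ i, |k i| := Finset.abs_sum_le_sum_abs _ _
    have e1 : ∑ i, c i = p i0 * ∑ i, p i + q i0 * ∑ i, q i := by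
      simp only [c, Finset.sum_add_distrib, Finset.mul_sum]
    have e2 : ∑ i, k i = p i0 * ∑ i, q i - q i0 * ∑ i, p i := by
      simp only [k, Finset.sum_sub_distrib, Finset.mul_sum]
    have e3 : (∑ i, p i) ^ 2 + (∑ i, q i) ^ 2 = (∑ i, c i) ^ 2 + (∑ i, k i) ^ 2 := by
      rw [e1, e2]
      have := hS i0 h0
      have e4 : (p i0 * ∑ i, p i + q i0 * ∑ i, q i) ^ 2 + (p i0 * ∑ i, q i - q i0 * ∑ i, p i) ^ 2 =
        (p i0 ^ 2 + q i0 ^ 2) * ((∑ i, p i) ^ 2 + (∑ i, q i) ^ 2) := by ring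
      rw [e4, this]; ring
    rw [e3]
    set A := ∑ i, c i
    set B := ∑ i, k i
    set κ := ∑ i, |k i| with hκdef
    set m : ℝ := ((∑ i ∈ S, ε i : ℤ) : ℝ)
    have h3 : Real.sqrt (A ^ 2 + B ^ 2) ≤ |A| + |B| := by
      rw [Real.sqrt_le_left (by positivity)]
      nlinarith [abs_nonneg A, abs_nonneg B, sq_abs A, sq_abs B, mul_nonneg (abs_nonneg A) (abs_nonneg B)]
    have h4 : |A| ≤ Real.sqrt (A ^ 2 + B ^ 2) := by
      apply Real.le_sqrt_of_sq_le
      rw [sq_abs]; nlinarith [sq_nonneg B]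
    have h5 : |A| ≤ |m| + κ := by
      have := abs_sub_abs_le_abs_sub A m
      linarith
    have h6 : |m| ≤ |A| + κ := by
      have := abs_sub_abs_le_abs_sub m A
      rw [abs_sub_comm m A] at this
      linarith
    have hκ0 : 0 ≤ κ := (abs_nonneg _).trans h2
    rw [abs_le]
    constructor <;> linarith

namespace Cfg

variable {ι : Type*} [Fintype ι] [DecidableEq ι] (C : Cfg ι)

noncomputable def Jo (v : ι) : ℝ := ∑ b, ∑ d, max (-C.K v b v d) 0
noncomputable def Ji (v : ι) : ℝ := ∑ a, ∑ c, max (C.K a v c v) 0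

theorem J_eq (v : ι) : C.J v = C.Ji v + C.Jo v := by
  unfold J Ji Jo
  have : ∑ b, ∑ d, max (-C.K v b v d) 0 = - ∑ b, ∑ d, min (C.K v b v d) 0 := by
    rw [← Finset.sum_neg_distrib]
    refine Finset.sum_congr rfl fun b _ => ?_
    rw [← Finset.sum_neg_distrib]
    refine Finset.sum_congr rfl fun d _ => ?_
    rcases le_total 0 (C.K v b v d) with h | h
    · rw [min_eq_right h, max_eq_right (by linarith)]; simp
    · rw [min_eq_left h, max_eq_left (by linarith)]
  rw [this]; ring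

theorem Jo_nonneg (v : ι) : 0 ≤ C.Jo v :=
  Finset.sum_nonneg fun _ _ => Finset.sum_nonneg fun _ _ => le_max_right _ _
theorem Ji_nonneg (v : ι) : 0 ≤ C.Ji v :=
  Finset.sum_nonneg fun _ _ => Finset.sum_nonneg fun _ _ => le_max_right _ _

theorem row_out (v b : ι) : ∑ d, |C.K v b v d| ≤ C.Jo v := by
  have := row_le (fun b d => - C.K v b v d) (fun b d => by unfold K; ring) b
  simp only [abs_neg] at this
  exact this

theorem row_in (v a : ι) : ∑ c, |C.K a v c v| ≤ C.Ji v :=
  row_le (fun a c => C.K a v c v) (fun b d => by unfold K; ring) a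

theorem uy_pos {a b : ι} (h : C.W a b ≠ 0) : 0 < C.uy a b :=
  mul_pos (C.W_pos h) (by linarith [C.W_up a b h])

theorem oo {v b d : ι} : |C.K v b v d| ≤ C.J v := by
  have h := Finset.single_le_sum (f := fun d => |C.K v b v d|) (fun _ _ => abs_nonneg _)
    (Finset.mem_univ d)
  have := C.row_out v b
  have := C.Ji_nonneg v
  rw [C.J_eq]
  linarith

theorem ii {v a c : ι} : |C.K a v c v| ≤ C.J v := by
  have h := Finset.single_le_sum (f := fun c => |C.K a v c v|) (fun _ _ => abs_nonneg _)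
    (Finset.mem_univ c)
  have := C.row_in v a
  have := C.Jo_nonneg v
  rw [C.J_eq]
  linarith

theorem oi {v b c : ι} (hx : C.Dx v = 0) (hy : C.Dy v = 0) (hb : C.W v b ≠ 0) (hc : C.W c v ≠ 0) :
    |C.K v b c v| ≤ C.J v := by
  have hx' : C.Ox v = C.Ix v := by unfold Dx at hx; linarith
  have hy' : C.Oy v = C.Iy v := by unfold Dy at hy; linarith
  have h1 : |C.ux v b * C.Oy v - C.uy v b * C.Ox v| ≤ C.Jo v := by
    refine le_trans ?_ (C.row_out v b)
    have : C.ux v b * C.Oy v - C.uy v b * C.Ox v = ∑ d, C.K v b v d := by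
      unfold Oy Ox K; rw [Finset.mul_sum, Finset.mul_sum, Finset.sum_sub_distrib]
    rw [this]
    exact Finset.abs_sum_le_sum_abs _ _
  have h2 : |C.ux c v * C.Oy v - C.uy c v * C.Ox v| ≤ C.Ji v := by
    refine le_trans ?_ (C.row_in v c)
    have : C.ux c v * C.Oy v - C.uy c v * C.Ox v = ∑ a, C.K c v a v := by
      rw [hx', hy']
      unfold Iy Ix K; rw [Finset.mul_sum, Finset.mul_sum, Finset.sum_sub_distrib]
    rw [this]
    exact Finset.abs_sum_le_sum_abs _ _
  have hub := C.uy_pos hb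
  have huc := C.uy_pos hc
  have h3 : C.uy v b ≤ C.Oy v :=
    Finset.single_le_sum (f := fun d => C.uy v d) (fun _ _ => C.uy_nonneg _ _) (Finset.mem_univ b)
  have h4 : C.uy c v ≤ C.Oy v := by
    rw [hy']
    exact Finset.single_le_sum (f := fun d => C.uy d v) (fun _ _ => C.uy_nonneg _ _)
      (Finset.mem_univ c)
  have hs : 0 < C.Oy v := by linarith
  have e : C.K v b c v * C.Oy v = -(C.ux c v * C.Oy v - C.uy c v * C.Ox v) * C.uy v b +
      (C.ux v b * C.Oy v - C.uy v b * C.Ox v) * C.uy c v := by unfold K; ring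
  have h5 : |C.K v b c v| * C.Oy v ≤ C.J v * C.Oy v := by
    rw [← abs_of_pos hs, ← abs_mul, abs_of_pos hs, e, C.J_eq]
    refine (abs_add_le _ _).trans ?_
    rw [abs_mul, abs_mul, abs_neg, abs_of_pos hub, abs_of_pos huc]
    have := mul_le_mul h2 h3 hub.le (C.Ji_nonneg v)
    have := mul_le_mul h1 h4 huc.le (C.Jo_nonneg v)
    linarith
  exact le_of_mul_le_mul_right h5 hs

theorem half {v : ι} (hunit : ∀ a b, C.W a b ≠ 0 → C.ux a b ^ 2 + C.uy a b ^ 2 = 1)
    (hx : C.Dx v = 0) (hy : C.Dy v = 0)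
    (hodd : Odd ((univ.filter (fun b => C.W v b ≠ 0)).card +
      (univ.filter (fun a => C.W a v ≠ 0)).card)) : 1 / 2 ≤ C.J v := by
  classical
  set So := univ.filter (fun b => C.W v b ≠ 0) with hSo
  set Si := univ.filter (fun a => C.W a v ≠ 0) with hSi
  have hx' : C.Ox v = C.Ix v := by unfold Dx at hx; linarith
  have hy' : C.Oy v = C.Iy v := by unfold Dy at hy; linarith
  have hOI : So.Nonempty ↔ Si.Nonempty := by
    have key1 : So.Nonempty → 0 < C.Oy v := by
      rintro ⟨b, hb⟩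
      have := C.uy_pos (a := v) (b := b) (by simpa [So] using hb)
      exact lt_of_lt_of_le this
        (Finset.single_le_sum (f := fun d => C.uy v d) (fun _ _ => C.uy_nonneg _ _) (Finset.mem_univ b))
    have key2 : Si.Nonempty → 0 < C.Iy v := by
      rintro ⟨b, hb⟩
      have := C.uy_pos (a := b) (b := v) (by simpa [Si] using hb)
      exact lt_of_lt_of_le this
        (Finset.single_le_sum (f := fun d => C.uy d v) (fun _ _ => C.uy_nonneg _ _) (Finset.mem_univ b))
    have key3 : ¬ So.Nonempty → C.Oy v = 0 := by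
      intro h
      refine Finset.sum_eq_zero fun b _ => ?_
      have : C.W v b = 0 := by
        by_contra hb
        exact h ⟨b, by simp [So, hb]⟩
      simp [uy, this]
    have key4 : ¬ Si.Nonempty → C.Iy v = 0 := by
      intro h
      refine Finset.sum_eq_zero fun b _ => ?_
      have : C.W b v = 0 := by
        by_contra hb
        exact h ⟨b, by simp [Si, hb]⟩
      simp [uy, this]
    constructor
    · intro h
      by_contra h'
      have := key1 h; have := key4 h'; linarith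
    · intro h
      by_contra h'
      have := key2 h; have := key3 h'; linarith
  have hne : So.Nonempty ∧ Si.Nonempty := by
    by_contra h
    have h1 : ¬ So.Nonempty := fun h1 => h ⟨h1, hOI.1 h1⟩
    have h2 : ¬ Si.Nonempty := fun h2 => h1 (hOI.2 h2)
    rw [Finset.not_nonempty_iff_eq_empty] at h1 h2
    rw [h1, h2] at hodd
    simp at hodd
  obtain ⟨⟨b0, hb0⟩, ⟨a0, ha0⟩⟩ := hne
  obtain ⟨m, hm1, hm2⟩ := near_int (fun b => C.ux v b) (fun b => C.uy v b) So
    (fun i hi => hunit v i (by simpa [So] using hi))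
    (fun i hi => by
      have : C.W v i = 0 := by by_contra h; exact hi (by simp [So, h])
      simp [ux, uy, this]) b0 hb0
  obtain ⟨m', hm1', hm2'⟩ := near_int (fun b => C.ux b v) (fun b => C.uy b v) Si
    (fun i hi => hunit i v (by simpa [Si] using hi))
    (fun i hi => by
      have : C.W i v = 0 := by by_contra h; exact hi (by simp [Si, h])
      simp [ux, uy, this]) a0 ha0
  have r1 := C.row_out v b0
  have r2 := C.row_in v a0
  have e1 : Real.sqrt ((∑ i, C.ux v i) ^ 2 + (∑ i, C.uy v i) ^ 2) =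
      Real.sqrt ((∑ i, C.ux i v) ^ 2 + (∑ i, C.uy i v) ^ 2) := by
    have a1 : ∑ i, C.ux v i = ∑ i, C.ux i v := hx'
    have a2 : ∑ i, C.uy v i = ∑ i, C.uy i v := hy'
    rw [a1, a2]
  rw [e1] at hm2
  have r1' : ∑ i, |C.ux v b0 * C.uy v i - C.uy v b0 * C.ux v i| ≤ C.Jo v := r1
  have r2' : ∑ i, |C.ux a0 v * C.uy i v - C.uy a0 v * C.ux i v| ≤ C.Ji v := r2
  have h1 : |(|(m : ℝ)| - |(m' : ℝ)|)| ≤ 2 * C.J v := by
    rw [C.J_eq]
    rw [abs_le] at hm2 hm2' ⊢
    constructor <;> linarith [hm2.1, hm2.2, hm2'.1, hm2'.2]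
  have h2 : (1 : ℝ) ≤ |(|(m : ℝ)| - |(m' : ℝ)|)| := by
    have h3 : (|m| - |m'| : ℤ) ≠ 0 := by
      intro h4
      have h5 : |m| = |m'| := by omega
      have h6 : Odd ((So.card : ℤ) + (Si.card : ℤ)) := by exact_mod_cast hodd
      rcases abs_eq_abs.1 h5 with h7 | h7
      · obtain ⟨r, hr⟩ := hm1
        obtain ⟨r', hr'⟩ := hm1'
        obtain ⟨t, ht⟩ := h6
        omega
      · obtain ⟨r, hr⟩ := hm1
        obtain ⟨r', hr'⟩ := hm1'
        obtain ⟨t, ht⟩ := h6
        omega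
    have h8 : (1 : ℤ) ≤ |(|m| - |m'|)| := Int.one_le_abs h3
    exact_mod_cast h8
  linarith

end Cfg

end Pool.Agent.W644.GN
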