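import Mathlib

set_option autoImplicit false

/-!
# Geodesic nets: the pairwise identity behind the sweep argument
-/

namespace Pool.Agent.W644.GN

/-- `N c d x t` is `(yd - yc)` times (abscissa of the segment `cd` at height `t` minus `x`). -/
def N (xc yc xd yd x t : ℝ) : ℝ := (xc - x) * (yd - yc) + (t - yc) * (xd - xc)

/-- difference of abscissas of `cd` and `ab` at height `t`, times positive factors. -/
def Dp (xa ya xb yb xc yc xd yd t : ℝ) : ℝ :=
  (yb - ya) * (xc * (yd - yc) + (t - yc) * (xd - xc)) -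
    (yd - yc) * (xa * (yb - ya) + (t - ya) * (xb - xa))

theorem affine_sign {p q m M : ℝ} (hmM : m < M) (h1 : p + q * m ≠ 0) (h2 : p + q * M ≠ 0)
    (h : ∀ t, m < t → t < M → p + q * t ≠ 0) : (0 < p + q * m ↔ 0 < p + q * M) := by
  by_contra hcon
  have hq : q ≠ 0 := by
    rintro rfl
    apply hcon
    simp
  have hroot : p + q * (-p / q) = 0 := by field_simp; ring
  have hprod : (p + q * m) * (p + q * M) < 0 := by
    rcases lt_or_gt_of_ne h1 with h1 | h1 <;> rcases lt_or_gt_of_ne h2 with h2 | h2
    · exact absurd ⟨fun h => absurd h (not_lt.2 h1.le), fun h => absurd h (not_lt.2 h2.le)⟩ hcon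
    · exact mul_neg_of_neg_of_pos h1 h2
    · exact mul_neg_of_pos_of_neg h1 h2
    · exact absurd ⟨fun _ => h2, fun _ => h1⟩ hcon
  have e1 : p + q * m = q * (m - (-p / q)) := by field_simp; ring
  have e2 : p + q * M = q * (M - (-p / q)) := by field_simp; ring
  rw [e1, e2] at hprod
  have hq2 : 0 < q ^ 2 := by positivity
  have h3 : (m - (-p / q)) * (M - (-p / q)) < 0 := by
    by_contra h4
    push Not at h4
    nlinarith [mul_nonneg hq2.le h4]
  have h5 : m < -p / q := by
    by_contra h6
    push Not at h6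
    nlinarith
  have h7 : -p / q < M := by
    by_contra h6
    push Not at h6
    nlinarith
  exact h _ h5 h7 hroot

theorem Dp_sign {xa ya xb yb xc yc xd yd m M : ℝ} (hmM : m < M)
    (h1 : Dp xa ya xb yb xc yc xd yd m ≠ 0) (h2 : Dp xa ya xb yb xc yc xd yd M ≠ 0)
    (h : ∀ t, m < t → t < M → Dp xa ya xb yb xc yc xd yd t ≠ 0) :
    (0 < Dp xa ya xb yb xc yc xd yd m ↔ 0 < Dp xa ya xb yb xc yc xd yd M) := by
  have e : ∀ t, Dp xa ya xb yb xc yc xd yd t =
      Dp xa ya xb yb xc yc xd yd 0 + ((yb - ya) * (xd - xc) - (yd - yc) * (xb - xa)) * t := by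
    intro t; unfold Dp; ring
  rw [e m, e M] at *
  exact affine_sign hmM h1 h2 (fun t ht1 ht2 => by rw [← e t]; exact h t ht1 ht2)

theorem Dp_a (xa ya xb yb xc yc xd yd : ℝ) :
    Dp xa ya xb yb xc yc xd yd ya = (yb - ya) * N xc yc xd yd xa ya := by unfold Dp N; ring
theorem Dp_b (xa ya xb yb xc yc xd yd : ℝ) :
    Dp xa ya xb yb xc yc xd yd yb = (yb - ya) * N xc yc xd yd xb yb := by unfold Dp N; ring
theorem Dp_c (xa ya xb yb xc yc xd yd : ℝ) :
    Dp xa ya xb yb xc yc xd yd yc = (yd - yc) * (- N xa ya xb yb xc yc) := by unfold Dp N; ring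
theorem Dp_d (xa ya xb yb xc yc xd yd : ℝ) :
    Dp xa ya xb yb xc yc xd yd yd = (yd - yc) * (- N xa ya xb yb xd yd) := by unfold Dp N; ring

theorem pos_mul_iff {p q : ℝ} (hp : 0 < p) : 0 < p * q ↔ 0 < q :=
  mul_pos_iff_of_pos_left hp

/-- The pairwise identity. -/
theorem pw (xa ya xb yb xc yc xd yd w w' : ℝ) (hab : ya < yb) (hcd : yc < yd) (hw : 0 < w)
    (hw' : 0 < w') (hac : ya = yc → xa = xc) (hbd : yb = yd → xb = xd)
    (nb : yc < yb → yb < yd → N xc yc xd yd xb yb ≠ 0)
    (na : yc < ya → ya < yd → N xc yc xd yd xa ya ≠ 0)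
    (nc : ya < yc → yc < yb → N xa ya xb yb xc yc ≠ 0)
    (nd : ya < yd → yd < yb → N xa ya xb yb xd yd ≠ 0)
    (hx : ¬ (ya = yc ∧ yb = yd) → ∀ t, ya < t → t < yb → yc < t → t < yd →
      Dp xa ya xb yb xc yc xd yd t ≠ 0)
    (K : ℝ) (hK : K = w * w' * ((xb - xa) * (yd - yc) - (yb - ya) * (xd - xc))) :
    (if ya = yc then min K 0 else 0) +
      (if ya < yc ∧ yc < yb ∧ N xa ya xb yb xc yc < 0 then K else 0) +
      (if yc < ya ∧ ya < yd ∧ 0 < N xc yc xd yd xa ya then K else 0) =
    (if yb = yd then max K 0 else 0) +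
      (if yc < yb ∧ yb < yd ∧ 0 < N xc yc xd yd xb yb then K else 0) +
      (if ya < yd ∧ yd < yb ∧ N xa ya xb yb xd yd < 0 then K else 0) := by
  have hww : 0 < w * w' := mul_pos hw hw'
  have hba : 0 < yb - ya := by linarith
  have hdc : 0 < yd - yc := by linarith
  rcases lt_trichotomy ya yc with h1 | h1 | h1
  · -- ya < yc
    rw [if_neg (show ¬ ya = yc from fun h => by linarith), if_neg (fun h : yc < ya ∧ _ => by linarith [h.1])]
    by_cases hcb : yc < yb
    · rcases lt_trichotomy yb yd with h2 | h2 | h2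
      · -- end at b
        rw [if_neg (show ¬ yb = yd from fun h => by linarith), if_neg (fun h : ya < yd ∧ yd < yb ∧ _ => by linarith [h.2.1])]
        have hs := Dp_sign (xa := xa) (ya := ya) (xb := xb) (yb := yb) (xc := xc) (yc := yc)
          (xd := xd) (yd := yd) hcb
          (by rw [Dp_c]; exact mul_ne_zero hdc.ne' (neg_ne_zero.2 (nc h1 hcb)))
          (by rw [Dp_b]; exact mul_ne_zero hba.ne' (nb hcb h2))
          (fun t ht1 ht2 => hx (by rintro ⟨h, -⟩; linarith) t (by linarith) ht2 ht1 (by linarith))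
        rw [Dp_c, Dp_b, pos_mul_iff hdc, pos_mul_iff hba, neg_pos] at hs
        have : (ya < yc ∧ yc < yb ∧ N xa ya xb yb xc yc < 0) ↔
            (yc < yb ∧ yb < yd ∧ 0 < N xc yc xd yd xb yb) := by
          simp only [h1, hcb, h2, true_and]; exact hs
        simp only [this] <;> ring
      · -- common end
        have hxx := hbd h2
        subst h2 hxx
        rw [if_pos rfl, if_neg (fun h : yc < yb ∧ yb < yb ∧ _ => lt_irrefl _ h.2.1),
          if_neg (fun h : ya < yb ∧ yb < yb ∧ _ => lt_irrefl _ h.2.1)]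
        have e : K = w * w' * (-N xa ya xb yb xc yc) := by
          rw [hK]; unfold N; ring
        by_cases hN : N xa ya xb yb xc yc < 0
        · rw [if_pos ⟨h1, hcb, hN⟩]
          have : 0 < K := by rw [e]; exact mul_pos hww (by linarith)
          rw [max_eq_left this.le]; ring
        · rw [if_neg (fun h => hN h.2.2)]
          have : K ≤ 0 := by
            rw [e]; push Not at hN
            nlinarith
          rw [max_eq_right this]
      · -- end at d
        rw [if_neg (show ¬ yb = yd from fun h => by linarith), if_neg (fun h : yc < yb ∧ yb < yd ∧ _ => by linarith [h.2.1])]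
        have had : ya < yd := by linarith
        have hs := Dp_sign (xa := xa) (ya := ya) (xb := xb) (yb := yb) (xc := xc) (yc := yc)
          (xd := xd) (yd := yd) hcd
          (by rw [Dp_c]; exact mul_ne_zero hdc.ne' (neg_ne_zero.2 (nc h1 hcb)))
          (by rw [Dp_d]; exact mul_ne_zero hdc.ne' (neg_ne_zero.2 (nd had h2)))
          (fun t ht1 ht2 => hx (by rintro ⟨h, -⟩; linarith) t (by linarith) (by linarith) ht1 ht2)
        rw [Dp_c, Dp_d, pos_mul_iff hdc, pos_mul_iff hdc, neg_pos, neg_pos] at hs
        have : (ya < yc ∧ yc < yb ∧ N xa ya xb yb xc yc < 0) ↔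
            (ya < yd ∧ yd < yb ∧ N xa ya xb yb xd yd < 0) := by
          simp only [h1, hcb, h2, had, true_and]; exact hs
        simp only [this] <;> ring
    · rw [if_neg (fun h : ya < yc ∧ yc < yb ∧ _ => hcb h.2.1)]
      push Not at hcb
      rw [if_neg (show ¬ yb = yd from fun h => by linarith), if_neg (fun h : yc < yb ∧ _ => by linarith [h.1]),
        if_neg (fun h : ya < yd ∧ yd < yb ∧ _ => by linarith [h.2.1])]
  · -- common start
    have hxx := hac h1
    subst h1 hxx
    rw [if_pos rfl, if_neg (fun h : ya < ya ∧ _ => lt_irrefl _ h.1),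
      if_neg (fun h : ya < ya ∧ _ => lt_irrefl _ h.1)]
    rcases lt_trichotomy yb yd with h2 | h2 | h2
    · rw [if_neg (show ¬ yb = yd from fun h => by linarith), if_neg (fun h : ya < yd ∧ yd < yb ∧ _ => by linarith [h.2.1])]
      have e : K = - (w * w' * N xa ya xd yd xb yb) := by
        rw [hK]; unfold N; ring
      by_cases hN : 0 < N xa ya xd yd xb yb
      · rw [if_pos ⟨hab, h2, hN⟩]
        have : K < 0 := by rw [e]; have := mul_pos hww hN; linarith
        rw [min_eq_left this.le]; ring
      · rw [if_neg (fun h => hN h.2.2)]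
        have : 0 ≤ K := by
          rw [e]; push Not at hN
          nlinarith
        rw [min_eq_right this]
    · have hxx := hbd h2
      subst h2 hxx
      have : K = 0 := by rw [hK]; ring
      simp [this]
    · have had : ya < yd := hcd
      rw [if_neg (show ¬ yb = yd from fun h => by linarith), if_neg (fun h : ya < yb ∧ yb < yd ∧ _ => by linarith [h.2.1])]
      have e : K = w * w' * N xa ya xb yb xd yd := by
        rw [hK]; unfold N; ring
      by_cases hN : N xa ya xb yb xd yd < 0
      · rw [if_pos ⟨had, h2, hN⟩]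
        have : K < 0 := by rw [e]; exact mul_neg_of_pos_of_neg hww hN
        rw [min_eq_left this.le]; ring
      · rw [if_neg (fun h => hN h.2.2)]
        have : 0 ≤ K := by
          rw [e]; push Not at hN
          positivity
        rw [min_eq_right this]
  · -- yc < ya
    rw [if_neg (show ¬ ya = yc from fun h => by linarith), if_neg (fun h : ya < yc ∧ _ => by linarith [h.1])]
    by_cases had : ya < yd
    · rcases lt_trichotomy yb yd with h2 | h2 | h2
      · have hcb : yc < yb := by linarith
        rw [if_neg (show ¬ yb = yd from fun h => by linarith), if_neg (fun h : ya < yd ∧ yd < yb ∧ _ => by linarith [h.2.1])]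
        have hs := Dp_sign (xa := xa) (ya := ya) (xb := xb) (yb := yb) (xc := xc) (yc := yc)
          (xd := xd) (yd := yd) hab
          (by rw [Dp_a]; exact mul_ne_zero hba.ne' (na h1 had))
          (by rw [Dp_b]; exact mul_ne_zero hba.ne' (nb hcb h2))
          (fun t ht1 ht2 => hx (by rintro ⟨h, -⟩; linarith) t ht1 ht2 (by linarith) (by linarith))
        rw [Dp_a, Dp_b, pos_mul_iff hba, pos_mul_iff hba] at hs
        have : (yc < ya ∧ ya < yd ∧ 0 < N xc yc xd yd xa ya) ↔
            (yc < yb ∧ yb < yd ∧ 0 < N xc yc xd yd xb yb) := by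
          simp only [h1, hcb, h2, had, true_and]; exact hs
        simp only [this] <;> ring
      · have hxx := hbd h2
        subst h2 hxx
        rw [if_pos rfl, if_neg (fun h : yc < yb ∧ yb < yb ∧ _ => lt_irrefl _ h.2.1),
          if_neg (fun h : ya < yb ∧ yb < yb ∧ _ => lt_irrefl _ h.2.1)]
        have e : K = w * w' * N xc yc xb yb xa ya := by
          rw [hK]; unfold N; ring
        by_cases hN : 0 < N xc yc xb yb xa ya
        · rw [if_pos ⟨h1, had, hN⟩]
          have : 0 < K := by rw [e]; exact mul_pos hww hN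
          rw [max_eq_left this.le]; ring
        · rw [if_neg (fun h => hN h.2.2)]
          have : K ≤ 0 := by
            rw [e]; push Not at hN
            nlinarith
          rw [max_eq_right this]
      · rw [if_neg (show ¬ yb = yd from fun h => by linarith), if_neg (fun h : yc < yb ∧ yb < yd ∧ _ => by linarith [h.2.1])]
        have hs := Dp_sign (xa := xa) (ya := ya) (xb := xb) (yb := yb) (xc := xc) (yc := yc)
          (xd := xd) (yd := yd) had
          (by rw [Dp_a]; exact mul_ne_zero hba.ne' (na h1 had))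
          (by rw [Dp_d]; exact mul_ne_zero hdc.ne' (neg_ne_zero.2 (nd had h2)))
          (fun t ht1 ht2 => hx (by rintro ⟨h, -⟩; linarith) t ht1 (by linarith) (by linarith) ht2)
        rw [Dp_a, Dp_d, pos_mul_iff hba, pos_mul_iff hdc, neg_pos] at hs
        have : (yc < ya ∧ ya < yd ∧ 0 < N xc yc xd yd xa ya) ↔
            (ya < yd ∧ yd < yb ∧ N xa ya xb yb xd yd < 0) := by
          simp only [h1, h2, had, true_and]; exact hs
        simp only [this] <;> ring
    · rw [if_neg (fun h : yc < ya ∧ ya < yd ∧ _ => had h.2.1)]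
      push Not at had
      rw [if_neg (show ¬ yb = yd from fun h => by linarith), if_neg (fun h : yc < yb ∧ yb < yd ∧ _ => by linarith [h.2.1]),
        if_neg (fun h : ya < yd ∧ yd < yb ∧ _ => by linarith [h.1])]

end Pool.Agent.W644.GN
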